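import Pool.Agent.X9.DV.Fam

/-!
# MP_891d15_co, Q1: the degree-2 Davenport constant of `Z_p`, `p ≡ 1 (mod 4)`

The equality `D_{e_2}^{(2)}(Z_p) = p + 1` fails for `p = 73` and for infinitely many primes
`p ≡ 1 (mod 4)`.

For a sequence of `i` ones and `j` elements `x` with `2x = 3` one has
`4 (2 e_2) = (2i + 3j - 1)² - (3j + 1)`.  Take `p - 3` ones and four elements `x = 3/2` (for `p = 73`:
`70` ones and four times `38`).  For `j = 0, 1` the value vanishes for `i ≤ p - 3` only if
`i + j ≤ 1`; for `j = 2, 3, 4` it never vanishes if `7`, `10`, `13` are not squares modulo `p`.  The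
sequence has length `p + 1`, hence `D ≥ p + 2`.  By quadratic reciprocity the three numbers are
non-squares for all primes `p ≡ 73 (mod 3640)`, and there are infinitely many of these (Dirichlet).
-/

namespace Pool.Agent.Results.MP_891d15_co.InfinitelyManyExceptions

/-- `D_{e_2}^{(2)}(Z_n)`: the least positive integer `ℓ` such that every sequence (finite multiset)
`S` of length `ℓ` over `ZMod n` has a subsequence `T` with at least two terms and
`e_2(T) = ∑_{i < j} t_i t_j = 0` (`Multiset.esymm 2`, the sum of the products of all two-term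
subsequences).  It is a minimum: the set is nonempty for `n ≥ 1` (proved in
`Pool.Agent.X9.DV.D_nonempty`, used below). -/
noncomputable def D (n : ℕ) : ℕ :=
  sInf {ℓ : ℕ | 0 < ℓ ∧ ∀ S : Multiset (ZMod n), S.card = ℓ → ∃ T ≤ S, 2 ≤ T.card ∧ T.esymm 2 = 0}

/-- **Q1 is false**: (1) not every prime `p ≡ 1 (mod 4)` satisfies `D p = p + 1`;
(2) `D 73 ≥ 75`, in fact `D p ≥ p + 2` for every prime `p ≡ 73 (mod 3640)`;
(3) there are infinitely many primes `p ≡ 1 (mod 4)` with `D p ≥ p + 2`;
(4) the set in the definition of `D n` is nonempty for all `n ≥ 1`. -/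
theorem result :
    (¬ ∀ p : ℕ, p.Prime → p % 4 = 1 → D p = p + 1) ∧
    (∀ p : ℕ, p.Prime → p % 3640 = 73 → p + 2 ≤ D p) ∧
    (∀ N : ℕ, ∃ p > N, p.Prime ∧ p % 4 = 1 ∧ p + 2 ≤ D p) ∧
    (∀ n : ℕ, 0 < n → {ℓ : ℕ | 0 < ℓ ∧ ∀ S : Multiset (ZMod n), S.card = ℓ →
      ∃ T ≤ S, 2 ≤ T.card ∧ T.esymm 2 = 0}.Nonempty) := by
  have h1 : ∀ p : ℕ, p.Prime → p % 3640 = 73 → p + 2 ≤ D p :=
    fun p hp h => Pool.Agent.X9.DV.D_ge hp h
  refine ⟨fun hall => ?_, h1, fun N => ?_, Pool.Agent.X9.DV.D_nonempty⟩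
  · have h73 : Nat.Prime 73 := by norm_num
    have := hall 73 h73 (by norm_num)
    have := h1 73 h73 (by norm_num)
    omega
  · obtain ⟨p, hp, hpp, hmod⟩ := Nat.forall_exists_prime_gt_and_modEq N (q := 3640) (a := 73)
      (by norm_num) (by norm_num)
    have hm : p % 3640 = 73 := by
      have : p % 3640 = 73 % 3640 := hmod
      simpa using this
    exact ⟨p, hp, hpp, by omega, h1 p hpp hm⟩

end Pool.Agent.Results.MP_891d15_co.InfinitelyManyExceptions
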